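import Pool.Agent.N566.VV.Defs3
import Pool.Agent.N547.VV.Tangle

/-!
# Project VV: `E` commutes with the crossings on `n` strands (helper628)
-/

set_option autoImplicit false
set_option linter.all false

namespace Pool.Agent.N628.VV.Ex2

open Matrix Finset
open Pool.Agent.H550R3.Jones
open Pool.Agent.N566.VV

/-- the weight -/
noncomputable def w {N : ℕ} (v : ℂ) (x : Fin N) : ℂ := v ^ ((N : ℤ) - 1 - 2 * (x : ℕ))

theorem loc {N : ℕ} (v : ℂ) (a : Fin N) (g : Fin N → ℂ) :
    (if h : (a : ℕ) + 1 < N then br v ((N : ℤ) - ((a : ℕ) + 1)) * g ⟨(a : ℕ) + 1, h⟩ else 0) =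
      ∑ c, (irr v N).E a c * g c := by
  by_cases h : (a : ℕ) + 1 < N
  · rw [dif_pos h, sum_eq_single (⟨(a : ℕ) + 1, h⟩ : Fin N)]
    · simp only [irr, if_true]
      push_cast
      ring
    · intro c _ hc
      have : ¬ ((c : ℕ) = a + 1) := fun hh => hc (Fin.ext hh)
      simp only [irr]
      rw [if_neg this, zero_mul]
    · intro hh
      exact absurd (mem_univ _) hh
  · rw [dif_neg h]
    symm
    refine sum_eq_zero fun c _ => ?_
    have : ¬ ((c : ℕ) = a + 1) := by
      have := c.2
      omega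
    simp only [irr]
    rw [if_neg this, zero_mul]

theorem Ea_eq (N : ℕ) (v : ℂ) (n : ℕ) (f : F (Fin N)) (σ : ℕ → Fin N) :
    Ea N v n f σ = ∑ k ∈ range n, (∏ j ∈ Ico (k + 1) n, w v (σ j)) *
      ∑ c, (irr v N).E (σ k) c * f (Function.update σ k c) := by
  unfold Ea
  refine sum_congr rfl fun k _ => ?_
  rw [← loc v (σ k) (fun c => f (Function.update σ k c))]
  rfl

section upd

variable {ι : Type}

theorem upd_at (i : ℕ) (x y : ι) (σ : ℕ → ι) : updS i x y σ i = x := by simp [updS]

theorem upd_at1 (i : ℕ) (x y : ι) (σ : ℕ → ι) : updS i x y σ (i + 1) = y := by simp [updS]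

theorem upd_ne (i k : ℕ) (x y : ι) (σ : ℕ → ι) (h1 : k ≠ i) (h2 : k ≠ i + 1) :
    updS i x y σ k = σ k := by simp [updS, h1, h2]

theorem upd_comm (i k : ℕ) (x y c : ι) (σ : ℕ → ι) (h1 : k ≠ i) (h2 : k ≠ i + 1) :
    Function.update (updS i x y σ) k c = updS i x y (Function.update σ k c) := by
  funext p
  simp only [updS, Function.update_apply]
  split_ifs <;> first | rfl | omega

theorem upd_i (i : ℕ) (x y c : ι) (σ : ℕ → ι) :
    Function.update (updS i x y σ) i c = updS i c y σ := by
  funext p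
  simp only [updS, Function.update_apply]
  split_ifs <;> rfl

theorem upd_i1 (i : ℕ) (x y c : ι) (σ : ℕ → ι) :
    Function.update (updS i x y σ) (i + 1) c = updS i x c σ := by
  funext p
  simp only [updS, Function.update_apply]
  split_ifs <;> first | rfl | omega

theorem upd_upd (i : ℕ) (x y c : ι) (σ : ℕ → ι) :
    updS i x y (Function.update σ i c) = updS i x y σ := by
  funext p
  simp only [updS, Function.update_apply]
  split_ifs <;> first | rfl | omega

theorem upd_upd1 (i : ℕ) (x y c : ι) (σ : ℕ → ι) :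
    updS i x y (Function.update σ (i + 1) c) = updS i x y σ := by
  funext p
  simp only [updS, Function.update_apply]
  split_ifs <;> first | rfl | omega

end upd

theorem sum_two (n i : ℕ) (hi : i + 2 ≤ n) (L R : ℕ → ℂ)
    (h : ∀ k, k < n → k ≠ i → k ≠ i + 1 → L k = R k) (h2 : L i + L (i + 1) = R i + R (i + 1)) :
    ∑ k ∈ range n, L k = ∑ k ∈ range n, R k := by
  rw [← sub_eq_zero, ← sum_sub_distrib]
  have hsub : ({i, i + 1} : Finset ℕ) ⊆ range n := by
    intro k hk
    simp only [mem_insert, mem_singleton] at hk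
    rw [mem_range]
    omega
  rw [← sum_subset hsub]
  · rw [sum_pair (by omega)]
    linear_combination h2
  · intro k hk hk'
    simp only [mem_insert, mem_singleton, not_or] at hk'
    rw [h k (mem_range.1 hk) hk'.1 hk'.2, sub_self]

theorem prod_far {N : ℕ} (v : ℂ) (n i k : ℕ) (hk : i + 2 ≤ k) (σ : ℕ → Fin N)
    (x y : Fin N) :
    ∏ j ∈ Ico k n, w v (updS i x y σ j) = ∏ j ∈ Ico k n, w v (σ j) := by
  refine prod_congr rfl fun j hj => ?_
  rw [mem_Ico] at hj
  rw [upd_ne _ _ _ _ _ (by omega) (by omega)]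

theorem prod_near {N : ℕ} {v : ℂ} (hv : v ≠ 0) (n i k : ℕ) (hk : k ≤ i) (hi : i + 2 ≤ n)
    (σ : ℕ → Fin N) (x y : Fin N)
    (h : (irr v N).wt (σ i) + (irr v N).wt (σ (i + 1)) = (irr v N).wt x + (irr v N).wt y) :
    ∏ j ∈ Ico k n, w v (updS i x y σ j) = ∏ j ∈ Ico k n, w v (σ j) := by
  have hs : ∀ g : ℕ → ℂ, ∏ j ∈ Ico k n, g j =
      (∏ j ∈ Ico k i, g j) * (g i * g (i + 1)) * ∏ j ∈ Ico (i + 2) n, g j := by
    intro g
    rw [← prod_Ico_consecutive g (hk.trans (Nat.le_add_right i 2)) hi,
      ← prod_Ico_consecutive g hk (Nat.le_add_right i 2)]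
    congr 2
    rw [prod_Ico_succ_top (by omega), prod_Ico_succ_top (by omega), Ico_self, prod_empty, one_mul]
  rw [hs, hs, prod_far v n i (i + 2) le_rfl]
  congr 1
  rw [upd_at, upd_at1]
  congr 1
  · refine prod_congr rfl fun j hj => ?_
    rw [mem_Ico] at hj
    rw [upd_ne _ _ _ _ _ (by omega) (by omega)]
  · unfold w
    rw [← zpow_add₀ hv, ← zpow_add₀ hv]
    congr 1
    simp only [irr] at h
    omega

theorem main {N : ℕ} {v : ℂ} (hv : v ≠ 0) (A : Matrix (Fin N × Fin N) (Fin N × Fin N) ℂ)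
    (hA : IsInt (W v N) (W v N) A) (i n : ℕ) (hi : i + 2 ≤ n) (f : F (Fin N)) :
    Xl A i (Ea N v n f) = Ea N v n (Xl A i f) := by
  funext σ
  rw [Ea_eq]
  have hL : Xl A i (Ea N v n f) σ = ∑ k ∈ range n, ∑ p : Fin N × Fin N,
      A (σ i, σ (i + 1)) p * ((∏ j ∈ Ico (k + 1) n, w v (updS i p.1 p.2 σ j)) *
        ∑ c, (irr v N).E (updS i p.1 p.2 σ k) c *
          f (Function.update (updS i p.1 p.2 σ) k c)) := by
    unfold Xl
    rw [sum_comm]
    refine sum_congr rfl fun p _ => ?_
    rw [Ea_eq, mul_sum]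
  rw [hL]
  apply sum_two n i hi
  · intro k hk h1 h2
    -- both sides
    have hR : ∀ c, Xl A i f (Function.update σ k c) = ∑ p : Fin N × Fin N,
        A (σ i, σ (i + 1)) p * f (Function.update (updS i p.1 p.2 σ) k c) := by
      intro c
      unfold Xl
      refine sum_congr rfl fun p _ => ?_
      rw [upd_comm _ _ _ _ _ _ h1 h2, Function.update_of_ne h1.symm,
        Function.update_of_ne h2.symm]
    simp only [hR, mul_sum]
    rw [sum_comm]
    refine sum_congr rfl fun c _ => ?_
    refine sum_congr rfl fun p _ => ?_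
    rw [upd_ne i k _ _ _ h1 h2]
    by_cases h0 : A (σ i, σ (i + 1)) p = 0
    · rw [h0]; ring
    · have hw : (irr v N).wt (σ i) + (irr v N).wt (σ (i + 1)) =
          (irr v N).wt p.1 + (irr v N).wt p.2 := hA.k _ _ h0
      have hp : ∏ j ∈ Ico (k + 1) n, w v (updS i p.1 p.2 σ j) = ∏ j ∈ Ico (k + 1) n, w v (σ j) := by
        rcases Nat.lt_or_ge k i with hlt | hge
        · exact prod_near hv n i (k + 1) hlt hi σ _ _ hw
        · exact prod_far v n i (k + 1) (by omega) σ _ _
      rw [hp]
      ring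
  · -- the two-strand relation
    set P := ∏ j ∈ Ico (i + 2) n, w v (σ j) with hP
    set g : Fin N × Fin N → ℂ := fun q => f (updS i q.1 q.2 σ) with hg
    have hPi : ∏ j ∈ Ico (i + 1) n, w v (σ j) = w v (σ (i + 1)) * P := by
      rw [hP]
      exact prod_eq_prod_Ico_succ_bot (by omega : i + 1 < n) (fun j => w v (σ j))
    have hL1 : (∑ p : Fin N × Fin N,
        A (σ i, σ (i + 1)) p * ((∏ j ∈ Ico (i + 1) n, w v (updS i p.1 p.2 σ j)) *
          ∑ c, (irr v N).E (updS i p.1 p.2 σ i) c *
            f (Function.update (updS i p.1 p.2 σ) i c))) =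
        P * ∑ q : Fin N × Fin N, ((∑ r, A (σ i, σ (i + 1)) (r, q.2) * (irr v N).E r q.1) *
          v ^ (irr v N).wt q.2) * g q := by
      simp only [Fintype.sum_prod_type, mul_sum, sum_mul]
      rw [sum_comm]
      rw [sum_comm (s := (univ : Finset (Fin N))) (t := (univ : Finset (Fin N)))
        (f := fun x y => ∑ i_1, P * (A (σ i, σ (i + 1)) (i_1, y) * (irr v N).E i_1 x *
          v ^ (irr v N).wt y * g (x, y)))]
      refine sum_congr rfl fun y _ => ?_
      rw [sum_comm]
      refine sum_congr rfl fun x _ => ?_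
      refine sum_congr rfl fun c _ => ?_
      rw [upd_at, upd_i]
      have h1 : ∏ j ∈ Ico (i + 1) n, w v (updS i c y σ j) = w v y * P := by
        rw [← prod_far v n i (i + 2) le_rfl σ c y] at hP
        rw [prod_eq_prod_Ico_succ_bot (by omega : i + 1 < n), upd_at1, hP]
      rw [h1]
      simp only [w, irr, hg]
      ring
    have hL2 : (∑ p : Fin N × Fin N,
        A (σ i, σ (i + 1)) p * ((∏ j ∈ Ico (i + 1 + 1) n, w v (updS i p.1 p.2 σ j)) *
          ∑ c, (irr v N).E (updS i p.1 p.2 σ (i + 1)) c *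
            f (Function.update (updS i p.1 p.2 σ) (i + 1) c))) =
        P * ∑ q : Fin N × Fin N, (∑ r, A (σ i, σ (i + 1)) (q.1, r) * (irr v N).E r q.2) * g q := by
      simp only [Fintype.sum_prod_type, mul_sum, sum_mul]
      refine sum_congr rfl fun x _ => ?_
      rw [sum_comm]
      refine sum_congr rfl fun c _ => ?_
      refine sum_congr rfl fun y _ => ?_
      rw [upd_at1, upd_i1, prod_far v n i (i + 1 + 1) le_rfl σ x y]
      simp only [hg, hP]
      ring
    have hR1 : (∏ j ∈ Ico (i + 1) n, w v (σ j)) *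
        ∑ c, (irr v N).E (σ i) c * Xl A i f (Function.update σ i c) =
        P * ∑ q : Fin N × Fin N, ((∑ r, (irr v N).E (σ i) r * A (r, σ (i + 1)) q) *
          v ^ (irr v N).wt (σ (i + 1))) * g q := by
      rw [hPi]
      have h1 : ∀ c, Xl A i f (Function.update σ i c) =
          ∑ q : Fin N × Fin N, A (c, σ (i + 1)) q * g q := by
        intro c
        unfold Xl
        refine sum_congr rfl fun q _ => ?_
        rw [upd_upd, Function.update_self, Function.update_of_ne (by omega)]
      simp only [h1, mul_sum, sum_mul]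
      rw [sum_comm]
      refine sum_congr rfl fun q _ => ?_
      refine sum_congr rfl fun c _ => ?_
      simp only [w, irr]
      ring
    have hR2 : (∏ j ∈ Ico (i + 1 + 1) n, w v (σ j)) *
        ∑ c, (irr v N).E (σ (i + 1)) c * Xl A i f (Function.update σ (i + 1) c) =
        P * ∑ q : Fin N × Fin N, (∑ r, (irr v N).E (σ (i + 1)) r * A (σ i, r) q) * g q := by
      have h1 : ∀ c, Xl A i f (Function.update σ (i + 1) c) =
          ∑ q : Fin N × Fin N, A (σ i, c) q * g q := by
        intro c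
        unfold Xl
        refine sum_congr rfl fun q _ => ?_
        rw [upd_upd1, Function.update_self, Function.update_of_ne (by omega)]
      simp only [h1, mul_sum, sum_mul]
      rw [sum_comm]
      refine sum_congr rfl fun q _ => ?_
      refine sum_congr rfl fun c _ => ?_
      simp only [hP]
      ring
    rw [hL1, hL2, hR1, hR2, ← mul_add, ← mul_add, ← sum_add_distrib, ← sum_add_distrib]
    congr 1
    refine sum_congr rfl fun q _ => ?_
    rw [← add_mul, ← add_mul]
    congr 1
    have h1 := Pool.Agent.N547.VV.mulE v (irr v N) (irr v N) A (σ i, σ (i + 1)) q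
    have h2 := Pool.Agent.N547.VV.Emul v (irr v N) (irr v N) A (σ i, σ (i + 1)) q
    have h3 := congrFun (congrFun hA.e (σ i, σ (i + 1))) q
    rw [← h1, ← h2]
    exact h3

theorem s_ex2 : Pool.Agent.N566.VV.S_EX2 := by
  intro N u hu s i n hi f
  have hv : u ^ 2 ≠ 0 := pow_ne_zero 2 hu.1
  cases s
  · simp only [Bool.false_eq_true, if_false]
    exact main hv _ (Pool.Agent.N547.VV.crossN_int hu N) i n hi f
  · simp only [if_true]
    exact main hv _ (Pool.Agent.N547.VV.crossP_int hu N) i n hi f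

end Pool.Agent.N628.VV.Ex2
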